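import Pool.Agent.W761.CP.Defs

set_option autoImplicit false

open MeasureTheory
open scoped ENNReal FourierTransform SchwartzMap InnerProductSpace

namespace Pool.Agent.W381.CP

open Pool.Agent.Helper209.CX (Ed L2d InH1 dirichlet IsHu)
open Pool.Agent.W761.CP

lemma inner_eq {d : ℕ} (φ f : L2d d) :
    ⟪φ, f⟫_ℂ = ∫ x, f x * (starRingEnd ℂ) (φ x) := by
  rw [MeasureTheory.L2.inner_def]
  refine integral_congr_ae (Filter.Eventually.of_forall fun x => ?_)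
  exact RCLike.inner_apply _ _

lemma int_V {d : ℕ} (V : Ed d → ℂ) (hV : Measurable V) (u φ : L2d d)
    (h1 : Integrable (fun x => ‖V x‖ * ‖u x‖ ^ 2) volume)
    (h2 : Integrable (fun x => ‖V x‖ * ‖φ x‖ ^ 2) volume) :
    Integrable (fun x => V x * u x * (starRingEnd ℂ) (φ x)) volume := by
  refine Integrable.mono' (h1.add h2) ?_ (Filter.Eventually.of_forall fun x => ?_)
  · refine (hV.aestronglyMeasurable.mul (Lp.aestronglyMeasurable u)).mul ?_
    exact continuous_star.comp_aestronglyMeasurable (Lp.aestronglyMeasurable φ)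
  · show ‖V x * u x * (starRingEnd ℂ) (φ x)‖ ≤ ‖V x‖ * ‖u x‖ ^ 2 + ‖V x‖ * ‖φ x‖ ^ 2
    rw [norm_mul, norm_mul, RCLike.norm_conj]
    have hv := norm_nonneg (V x)
    have hu := norm_nonneg (u x)
    have hp := norm_nonneg (φ x)
    nlinarith [mul_nonneg hv (sq_nonneg (‖u x‖ - ‖φ x‖)), mul_nonneg hv (sq_nonneg (‖u x‖)),
      mul_nonneg hv (sq_nonneg (‖φ x‖)), mul_nonneg hv (mul_nonneg hu hp)]

theorem hu : S_GRAD → S_HU := by
  intro HG d h V hV u f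
  obtain ⟨hH, hD⟩ := HG d
  obtain ⟨hm, C, hC, hFB⟩ := hV
  constructor
  · rintro ⟨h1, h2⟩
    obtain ⟨g, hg⟩ := (hH u).1 h1
    refine ⟨g, hg, fun φ g' hg' => ?_⟩
    have h3 := (h2 φ ((hH φ).2 ⟨g', hg'⟩)).2
    rw [hD u φ g g' hg hg'] at h3
    rw [inner_eq]
    exact h3
  · rintro ⟨g, hg, h2⟩
    refine ⟨(hH u).2 ⟨g, hg⟩, fun φ hφ => ?_⟩
    obtain ⟨g', hg'⟩ := (hH φ).1 hφ
    refine ⟨int_V V hm u φ (hFB u g hg).1 (hFB φ g' hg').1, ?_⟩
    rw [hD u φ g g' hg hg', ← inner_eq]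
    exact h2 φ g' hg'

end Pool.Agent.W381.CP
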